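import Pool.Agent.SGL.StmtsG

set_option autoImplicit false

/-! # Squad SGL, row NXA: edges inside the slices and between consecutive slices -/

noncomputable section

namespace Pool.Agent.SGL.H70

open Pool.Agent.SGE Pool.Agent.SGP Pool.Agent.SGY Pool.Agent.SGD Pool.Agent.SGL

theorem nxa_o6 {p q r : ℝ × ℝ} (h : 0 < o p q r) :
    0 < o q r p ∧ 0 < o r p q ∧ o q p r < 0 ∧ o p r q < 0 ∧ o r q p < 0 := by
  have e1 : o q r p = o p q r := by unfold o; ring
  have e2 : o r p q = o p q r := by unfold o; ring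
  have e3 : o q p r = - o p q r := by unfold o; ring
  have e4 : o p r q = - o p q r := by unfold o; ring
  have e5 : o r q p = - o p q r := by unfold o; ring
  rw [e1, e2, e3, e4, e5]
  exact ⟨h, h, neg_neg_of_pos h, neg_neg_of_pos h, neg_neg_of_pos h⟩

theorem nxa_l (p q : ℝ × ℝ) : o p q p = 0 := by unfold o; ring
theorem nxa_r (p q : ℝ × ℝ) : o p q q = 0 := by unfold o; ring

section

variable {V : Type} {a c : V} {R : Set V} {s ρ : V → ℕ} {f : V → ℝ × ℝ}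

/-- (hh, hh) -/
theorem nxa_hh (G : GdL a c R s ρ f) (inj : ∀ p ∈ R, ∀ q ∈ R, ρ p = ρ q → p = q) {p q r t : V}
    (hp : p ∈ R) (hq : q ∈ R) (hr : r ∈ R) (ht : t ∈ R) (h1 : s p = s q) (h2 : ρ p < ρ q)
    (h3 : ∀ x ∈ R, s x = s p → ¬ (ρ p < ρ x ∧ ρ x < ρ q)) (k1 : s r = s t) (k2 : ρ r < ρ t)
    (k3 : ∀ x ∈ R, s x = s r → ¬ (ρ r < ρ x ∧ ρ x < ρ t))
    (n1 : p ≠ r) (n2 : p ≠ t) (n3 : q ≠ r) (n4 : q ≠ t) : ¬ Xs (f p) (f q) (f r) (f t) := by
  have m1 : ρ p ≠ ρ r := fun h => n1 (inj p hp r hr h)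
  have m2 : ρ p ≠ ρ t := fun h => n2 (inj p hp t ht h)
  have m3 : ρ q ≠ ρ r := fun h => n3 (inj q hq r hr h)
  have m4 : ρ q ≠ ρ t := fun h => n4 (inj q hq t ht h)
  rcases lt_trichotomy (s p) (s r) with hs | hs | hs
  · exact same_pos (G.up p hp q hq r hr h1 h2 hs) (G.up p hp q hq t ht h1 h2 (k1 ▸ hs))
  · have a1 := h3 r hr hs.symm
    have a2 := k3 p hp hs
    have hc : ρ q < ρ r ∨ ρ t < ρ p := by omega
    rcases hc with hc | hc
    · exact sepx (G.xx p hp r hr (by omega)) (G.xx p hp t ht (by omega))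
        (G.xx q hq r hr hc) (G.xx q hq t ht (by omega))
    · exact fun h => sepx (G.xx r hr p hp (by omega)) (G.xx r hr q hq (by omega))
        (G.xx t ht p hp hc) (G.xx t ht q hq (by omega)) (xs_swap h)
  · exact same_neg (nxa_o6 (G.dn p hp q hq r hr h1 h2 hs)).2.2.1
      (nxa_o6 (G.dn p hp q hq t ht h1 h2 (k1 ▸ hs))).2.2.1

/-- (hh, uu) -/
theorem nxa_hu (G : GdL a c R s ρ f) (inj : ∀ p ∈ R, ∀ q ∈ R, ρ p = ρ q → p = q) {p q r t : V}
    (hp : p ∈ R) (hq : q ∈ R) (hr : r ∈ R) (ht : t ∈ R) (h1 : s p = s q) (h2 : ρ p < ρ q)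
    (h3 : ∀ x ∈ R, s x = s p → ¬ (ρ p < ρ x ∧ ρ x < ρ q)) (k1 : s t = s r + 1)
    (n1 : p ≠ r) (n2 : p ≠ t) (n3 : q ≠ r) (n4 : q ≠ t) : ¬ Xs (f p) (f q) (f r) (f t) := by
  have m1 : ρ p ≠ ρ r := fun h => n1 (inj p hp r hr h)
  have m2 : ρ p ≠ ρ t := fun h => n2 (inj p hp t ht h)
  have m3 : ρ q ≠ ρ r := fun h => n3 (inj q hq r hr h)
  have m4 : ρ q ≠ ρ t := fun h => n4 (inj q hq t ht h)
  rcases lt_trichotomy (s p) (s r) with hs | hs | hs
  · exact same_pos (G.up p hp q hq r hr h1 h2 hs) (G.up p hp q hq t ht h1 h2 (by omega))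
  · have a1 := h3 r hr hs.symm
    have hc : ρ r < ρ p ∨ ρ q < ρ r := by omega
    rcases hc with hc | hc
    · have b1 := G.up r hr p hp t ht hs.symm hc (by omega)
      have b2 := G.up r hr q hq t ht (by omega) (by omega) (by omega)
      exact fun h => same_neg (nxa_o6 b1).2.2.2.1 (nxa_o6 b2).2.2.2.1 (xs_swap h)
    · have b1 := G.up p hp r hr t ht hs (by omega) (by omega)
      have b2 := G.up q hq r hr t ht (by omega) hc (by omega)
      exact fun h => same_pos (nxa_o6 b1).1 (nxa_o6 b2).1 (xs_swap h)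
  · by_cases hs2 : s p = s t
    · have a1 := h3 t ht hs2.symm
      have hc : ρ t < ρ p ∨ ρ q < ρ t := by omega
      rcases hc with hc | hc
      · have b1 := G.dn t ht p hp r hr hs2.symm hc (by omega)
        have b2 := G.dn t ht q hq r hr (by omega) (by omega) (by omega)
        exact fun h => same_neg (nxa_o6 b1).2.2.2.2 (nxa_o6 b2).2.2.2.2 (xs_swap h)
      · have b1 := G.dn p hp t ht r hr hs2 (by omega) (by omega)
        have b2 := G.dn q hq t ht r hr (by omega) hc (by omega)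
        exact fun h => same_pos (nxa_o6 b1).2.1 (nxa_o6 b2).2.1 (xs_swap h)
    · exact same_neg (nxa_o6 (G.dn p hp q hq r hr h1 h2 hs)).2.2.1
        (nxa_o6 (G.dn p hp q hq t ht h1 h2 (by omega))).2.2.1

/-- (uu, uu), the first edge is not higher and if in the same strip to the left -/
theorem nxa_uu {S : V → V → Prop} (G : GdL a c R s ρ f) (inj : ∀ p ∈ R, ∀ q ∈ R, ρ p = ρ q → p = q)
    (hS : SMon s ρ S) {p q r t : V}
    (hp : p ∈ R) (hq : q ∈ R) (hr : r ∈ R) (ht : t ∈ R) (h1 : s q = s p + 1) (h2 : S p q)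
    (k1 : s t = s r + 1) (k2 : S r t) (hle : s p < s r ∨ (s p = s r ∧ ρ p < ρ r))
    (n3 : q ≠ r) (n4 : q ≠ t) : ¬ Xs (f p) (f q) (f r) (f t) := by
  have m3 : ρ q ≠ ρ r := fun h => n3 (inj q hq r hr h)
  have m4 : ρ q ≠ ρ t := fun h => n4 (inj q hq t ht h)
  rcases hle with hs | ⟨hs, hc⟩
  · by_cases hs2 : s q = s r
    · rcases lt_or_gt_of_ne m3 with hc | hc
      · have b1 := G.dn q hq r hr p hp hs2 hc (by omega)
        have b2 := G.up q hq r hr t ht hs2 hc (by omega)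
        exact sepo (f q) (f r) (nxa_o6 b1).2.2.1 (nxa_l _ _).le (nxa_r _ _).ge b2.le
      · have b1 := G.dn r hr q hq p hp hs2.symm hc (by omega)
        have b2 := G.up r hr q hq t ht hs2.symm hc (by omega)
        exact sepo (f r) (f q) (nxa_o6 b1).2.2.1 (nxa_r _ _).le (nxa_l _ _).ge b2.le
    · have b1 := G.ra p hp r hr hs
      have b2 := G.ra q hq r hr (by omega)
      have b3 := G.ra r hr t ht (by omega)
      exact fun h => sepo (f a) (f r) (nxa_o6 b3).2.2.2.1 (nxa_r _ _).le b1.le b2.le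
        (xs_rev (xs_swap h))
  · have hq' : ρ q ≤ ρ t := hS p q r t h2 k2 hs hc
    have b1 := G.up p hp r hr t ht hs hc (by omega)
    have b2 := G.dn q hq t ht r hr (by omega) (lt_of_le_of_ne hq' m4) (by omega)
    exact fun h => same_pos (nxa_o6 b1).1 (nxa_o6 b2).2.1 (xs_swap h)

end

/-- **NXA**. -/
theorem nxa : NxaStmt := by
  intro V a c R s ρ S f G inj hS p q r t hp hq hr ht h k
  by_cases n1 : p = r
  · exact com (Or.inl (congrArg f n1))
  by_cases n2 : p = t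
  · exact com (Or.inr (Or.inl (congrArg f n2)))
  by_cases n3 : q = r
  · exact com (Or.inr (Or.inr (Or.inl (congrArg f n3))))
  by_cases n4 : q = t
  · exact com (Or.inr (Or.inr (Or.inr (congrArg f n4))))
  rcases h with ⟨h1, h2, h3⟩ | ⟨h1, h2⟩
  · rcases k with ⟨k1, k2, k3⟩ | ⟨k1, k2⟩
    · exact nxa_hh G inj hp hq hr ht h1 h2 h3 k1 k2 k3 n1 n2 n3 n4
    · exact nxa_hu G inj hp hq hr ht h1 h2 h3 k1 n1 n2 n3 n4
  · rcases k with ⟨k1, k2, k3⟩ | ⟨k1, k2⟩
    · exact fun h => nxa_hu G inj hr ht hp hq k1 k2 k3 h1 (Ne.symm n1) (Ne.symm n3)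
        (Ne.symm n2) (Ne.symm n4) (xs_swap h)
    · have m1 : ρ p ≠ ρ r := fun h => n1 (inj p hp r hr h)
      have hc : (s p < s r ∨ (s p = s r ∧ ρ p < ρ r)) ∨ (s r < s p ∨ (s r = s p ∧ ρ r < ρ p)) := by
        omega
      rcases hc with hc | hc
      · exact nxa_uu G inj hS hp hq hr ht h1 h2 k1 k2 hc n3 n4
      · exact fun h => nxa_uu G inj hS hr ht hp hq k1 k2 h1 h2 hc (Ne.symm n2) (Ne.symm n4)
          (xs_swap h)

end Pool.Agent.SGL.H70

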