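import Pool.Agent.SGL.StmtsU
import Pool.Agent.Helper56_SGP.CTR

set_option autoImplicit false

/-! # Squad SGL, row PTP: the points -/

noncomputable section

namespace Pool.Agent.SGL.H70

open Pool.Agent.SGE Pool.Agent.SGP Pool.Agent.SGY Pool.Agent.SGD Pool.Agent.SGL Filter

theorem ptp_all {V : Type} [Fintype V] (c : V × V → Prop) (P : V × V → ℝ → ℝ → Prop)
    (h : ∀ z, c z → ∀ᶠ B : ℝ in atTop, ∀ᶠ W : ℝ in atTop, P z B W) :
    ∀ᶠ B : ℝ in atTop, ∀ᶠ W : ℝ in atTop, ∀ z, c z → P z B W := by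
  have h1 : ∀ z : V × V, ∀ᶠ B : ℝ in atTop, ∀ᶠ W : ℝ in atTop, c z → P z B W := by
    intro z
    by_cases hc : c z
    · filter_upwards [h z hc] with B hB
      filter_upwards [hB] with W hW
      exact fun _ => hW
    · exact Eventually.of_forall fun B => Eventually.of_forall fun W h => absurd h hc
  have h2 := Filter.eventually_all.2 h1
  filter_upwards [h2] with B hB
  exact Filter.eventually_all.2 hB

/-- **PTP**. -/
theorem ptp (psa : PsaStmt) (pgp : PgpStmt) (pfc : PfcStmt) (pin : PinStmt) (pdl : PdlStmt) :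
    PtpStmt := by
  intro V _ a b c E F h s x y ρ nt h1 pl hρ
  have hc : Rel E c := by
    obtain ⟨t, ht⟩ := H56.contour_nb nt (show c ∈ [a, c, b] by simp)
    exact ⟨t, ht⟩
  have hca : c ≠ a := by
    have := nt.nd
    rintro rfl
    simp at this
  have e1 := pgp pl
  have e2 := pin nt h1 pl
  have e3 := pfc nt pl
  have e4 := pdl hc hca pl hρ
  have e5 := ptp_all (fun z : V × V => s z.1 = s z.2 ∧ y z.1 < y z.2)
    (fun z B W => 0 < o (x z.1, B ^ s z.1 + y z.1) (W, 0) (x z.2, B ^ s z.2 + y z.2))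
    (fun z hz => psa s x y z.1 z.2 (Or.inr hz))
  obtain ⟨B, b1, b2, b3, b4, b5⟩ := (e1.and (e2.and (e3.and (e4.and e5)))).exists
  obtain ⟨W, w1, w2, w3, w4, w5⟩ := (b1.and (b2.and (b3.and (b4.and b5)))).exists
  refine ⟨B, W, ⟨w1, w2.1, w2.2, w3⟩, w4, fun p hp r hr hs hy => ?_⟩
  have hcp : cu a s x y B W p = (x p, B ^ s p + y p) := if_neg hp.2
  have hcr : cu a s x y B W r = (x r, B ^ s r + y r) := if_neg hr.2
  have hcaa : cu a s x y B W a = (W, 0) := if_pos rfl
  rw [hcp, hcr, hcaa]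
  exact w5 (p, r) ⟨hs, hy⟩

end Pool.Agent.SGL.H70

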