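import Pool.Agent.SGL.StmtsA

set_option autoImplicit false

/-! # Squad SGL, row QPM -/

noncomputable section

namespace Pool.Agent.SGL.H70

open Pool.Agent.SGE Pool.Agent.SGP Pool.Agent.SGY Pool.Agent.SGD Pool.Agent.SGL

/-- **QPM**. -/
theorem qpm (hCLA : ClaStmt) (hCLB : ClbStmt) : QpmStmt := by
  intro V _ G R E Φ a z hG hM haz
  refine ⟨?_, ?_, ?_⟩
  · rintro p q ⟨h1, h2, h3, h4⟩
    exact ⟨h1.sw hM.1.sph, fun h => h2 (hG q p h), h4, h3⟩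
  · rintro p q ⟨h1, h2, h3, h4⟩
    exact ⟨h1, h3, h4⟩
  · rintro p q w ⟨h1, h2, h3, h4⟩ hw
    have c1 := (hCLA hG hM h1 h3 h4 haz h2).2 w hw
    have c2 := hCLB hG hM h1 h3 h4 haz h2 w hw
    exact ⟨c1.1, c1.2, fun h => ⟨h, c2.1 h, h3, c1.2⟩, fun h => ⟨h, c2.2 h, h4, c1.2⟩⟩

end Pool.Agent.SGL.H70

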